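import Pool.Agent.H72R3.HJ.Defs

/-!
# Algebra of alternating forms in degrees 1 to 4
-/

set_option autoImplicit false

namespace Pool.Agent.H72R3.HJ

variable {E : Type*} [AddCommGroup E] [Module ℝ E]

lemma alt_swap (B : E [⋀^Fin 2]→ₗ[ℝ] ℝ) (a b : E) : B ![a, b] = -B ![b, a] := by
  have h := B.map_swap ![b, a] (i := 0) (j := 1) (by simp)
  have e : (![b, a] ∘ (Equiv.swap (0 : Fin 2) 1) : Fin 2 → E) = ![a, b] := by
    ext i
    fin_cases i <;> simp
  rw [e] at h
  exact h

lemma alt_self (B : E [⋀^Fin 2]→ₗ[ℝ] ℝ) (a : E) : B ![a, a] = 0 := by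
  have := alt_swap B a a
  linarith

lemma alt_add_left (B : E [⋀^Fin 2]→ₗ[ℝ] ℝ) (a b c : E) : B ![a + b, c] = B ![a, c] + B ![b, c] :=
  B.map_vecCons_add _ _ _

lemma alt_smul_left (B : E [⋀^Fin 2]→ₗ[ℝ] ℝ) (r : ℝ) (a c : E) : B ![r • a, c] = r * B ![a, c] :=
  B.map_vecCons_smul _ _ _

lemma alt_add_right (B : E [⋀^Fin 2]→ₗ[ℝ] ℝ) (a b c : E) :
    B ![a, b + c] = B ![a, b] + B ![a, c] := by
  rw [alt_swap, alt_add_left, alt_swap B b a, alt_swap B c a]
  ring

lemma alt_smul_right (B : E [⋀^Fin 2]→ₗ[ℝ] ℝ) (r : ℝ) (a c : E) :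
    B ![a, r • c] = r * B ![a, c] := by
  rw [alt_swap, alt_smul_left, alt_swap B c a]
  ring

/-- Construction of alternating forms of degree 2. -/
def mk2 (f : E → E → ℝ) (h1 : ∀ a b c, f (a + b) c = f a c + f b c)
    (h2 : ∀ (r : ℝ) a c, f (r • a) c = r * f a c) (h3 : ∀ a b, f a b = -f b a) :
    E [⋀^Fin 2]→ₗ[ℝ] ℝ where
  toFun v := f (v 0) (v 1)
  map_update_add' := by
    intro inst v i x y
    obtain rfl : inst = instDecidableEqFin 2 := Subsingleton.elim _ _
    fin_cases i
    · simpa using h1 _ _ _
    · simp only [Fin.mk_one, Fin.isValue, ne_eq, zero_ne_one, not_false_eq_true,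
        Function.update_of_ne, Function.update_self]
      rw [h3, h1, h3 x, h3 y]
      ring
  map_update_smul' := by
    intro inst v i c x
    obtain rfl : inst = instDecidableEqFin 2 := Subsingleton.elim _ _
    fin_cases i
    · simpa using h2 _ _ _
    · simp only [Fin.mk_one, Fin.isValue, ne_eq, zero_ne_one, not_false_eq_true,
        Function.update_of_ne, Function.update_self]
      rw [h3, h2, h3 x, smul_eq_mul]
      ring
  map_eq_zero_of_eq' := by
    intro v i j hij hne
    fin_cases i <;> fin_cases j
    · exact absurd rfl hne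
    · simp only [Fin.mk_one, Fin.zero_eta] at hij
      rw [hij]
      have := h3 (v 1) (v 1)
      linarith
    · simp only [Fin.mk_one, Fin.zero_eta] at hij
      rw [hij]
      have := h3 (v 0) (v 0)
      linarith
    · exact absurd rfl hne

lemma fin3 : ∀ i : Fin 3, i = 0 ∨ i = 1 ∨ i = 2 := by decide

lemma fin4 : ∀ i : Fin 4, i = 0 ∨ i = 1 ∨ i = 2 ∨ i = 3 := by decide

/-- exterior product, degrees 1 and 2 -/
def w12 (a : E →ₗ[ℝ] ℝ) (B : E [⋀^Fin 2]→ₗ[ℝ] ℝ) : E [⋀^Fin 3]→ₗ[ℝ] ℝ where
  toFun v := a (v 0) * B ![v 1, v 2] - a (v 1) * B ![v 0, v 2] + a (v 2) * B ![v 0, v 1]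
  map_update_add' := by
    intro inst v i x y
    obtain rfl : inst = instDecidableEqFin 3 := Subsingleton.elim _ _
    rcases fin3 i with rfl | rfl | rfl <;>
      simp only [Function.update_self, Function.update_of_ne (show (0 : Fin 3) ≠ 1 by decide),
        Function.update_of_ne (show (0 : Fin 3) ≠ 2 by decide),
        Function.update_of_ne (show (1 : Fin 3) ≠ 0 by decide),
        Function.update_of_ne (show (1 : Fin 3) ≠ 2 by decide),
        Function.update_of_ne (show (2 : Fin 3) ≠ 0 by decide),
        Function.update_of_ne (show (2 : Fin 3) ≠ 1 by decide), alt_add_left, alt_add_right,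
        map_add] <;> ring
  map_update_smul' := by
    intro inst v i c x
    obtain rfl : inst = instDecidableEqFin 3 := Subsingleton.elim _ _
    rcases fin3 i with rfl | rfl | rfl <;>
      simp only [Function.update_self, Function.update_of_ne (show (0 : Fin 3) ≠ 1 by decide),
        Function.update_of_ne (show (0 : Fin 3) ≠ 2 by decide),
        Function.update_of_ne (show (1 : Fin 3) ≠ 0 by decide),
        Function.update_of_ne (show (1 : Fin 3) ≠ 2 by decide),
        Function.update_of_ne (show (2 : Fin 3) ≠ 0 by decide),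
        Function.update_of_ne (show (2 : Fin 3) ≠ 1 by decide), alt_smul_left, alt_smul_right,
        map_smul, smul_eq_mul] <;> ring
  map_eq_zero_of_eq' := by
    intro v i j hij hne
    rcases fin3 i with rfl | rfl | rfl <;>
      rcases fin3 j with rfl | rfl | rfl <;>
      first
      | exact absurd rfl hne
      | (rw [hij]
         simp only [alt_self, alt_swap B (v 1) (v 0), alt_swap B (v 2) (v 0),
           alt_swap B (v 2) (v 1)]
         ring)

/-- exterior product, degrees 2 and 2 -/
def w22 (A B : E [⋀^Fin 2]→ₗ[ℝ] ℝ) : E [⋀^Fin 4]→ₗ[ℝ] ℝ where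
  toFun v := A ![v 0, v 1] * B ![v 2, v 3] - A ![v 0, v 2] * B ![v 1, v 3] +
    A ![v 0, v 3] * B ![v 1, v 2] + A ![v 1, v 2] * B ![v 0, v 3] -
    A ![v 1, v 3] * B ![v 0, v 2] + A ![v 2, v 3] * B ![v 0, v 1]
  map_update_add' := by
    intro inst v i x y
    obtain rfl : inst = instDecidableEqFin 4 := Subsingleton.elim _ _
    rcases fin4 i with
      rfl | rfl | rfl | rfl <;>
      simp only [Function.update_self, Function.update_of_ne (show (0 : Fin 4) ≠ 1 by decide),
        Function.update_of_ne (show (0 : Fin 4) ≠ 2 by decide),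
        Function.update_of_ne (show (0 : Fin 4) ≠ 3 by decide),
        Function.update_of_ne (show (1 : Fin 4) ≠ 0 by decide),
        Function.update_of_ne (show (1 : Fin 4) ≠ 2 by decide),
        Function.update_of_ne (show (1 : Fin 4) ≠ 3 by decide),
        Function.update_of_ne (show (2 : Fin 4) ≠ 0 by decide),
        Function.update_of_ne (show (2 : Fin 4) ≠ 1 by decide),
        Function.update_of_ne (show (2 : Fin 4) ≠ 3 by decide),
        Function.update_of_ne (show (3 : Fin 4) ≠ 0 by decide),
        Function.update_of_ne (show (3 : Fin 4) ≠ 1 by decide),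
        Function.update_of_ne (show (3 : Fin 4) ≠ 2 by decide), alt_add_left, alt_add_right] <;> ring
  map_update_smul' := by
    intro inst v i c x
    obtain rfl : inst = instDecidableEqFin 4 := Subsingleton.elim _ _
    rcases fin4 i with
      rfl | rfl | rfl | rfl <;>
      simp only [Function.update_self, Function.update_of_ne (show (0 : Fin 4) ≠ 1 by decide),
        Function.update_of_ne (show (0 : Fin 4) ≠ 2 by decide),
        Function.update_of_ne (show (0 : Fin 4) ≠ 3 by decide),
        Function.update_of_ne (show (1 : Fin 4) ≠ 0 by decide),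
        Function.update_of_ne (show (1 : Fin 4) ≠ 2 by decide),
        Function.update_of_ne (show (1 : Fin 4) ≠ 3 by decide),
        Function.update_of_ne (show (2 : Fin 4) ≠ 0 by decide),
        Function.update_of_ne (show (2 : Fin 4) ≠ 1 by decide),
        Function.update_of_ne (show (2 : Fin 4) ≠ 3 by decide),
        Function.update_of_ne (show (3 : Fin 4) ≠ 0 by decide),
        Function.update_of_ne (show (3 : Fin 4) ≠ 1 by decide),
        Function.update_of_ne (show (3 : Fin 4) ≠ 2 by decide), alt_smul_left, alt_smul_right,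
        smul_eq_mul] <;> ring
  map_eq_zero_of_eq' := by
    intro v i j hij hne
    rcases fin4 i with
      rfl | rfl | rfl | rfl <;>
    rcases fin4 j with
      rfl | rfl | rfl | rfl <;>
      first
      | exact absurd rfl hne
      | (rw [hij]
         simp only [alt_self, alt_swap B (v 1) (v 0), alt_swap B (v 2) (v 0),
           alt_swap B (v 2) (v 1), alt_swap B (v 3) (v 0), alt_swap B (v 3) (v 1),
           alt_swap B (v 3) (v 2), alt_swap A (v 1) (v 0), alt_swap A (v 2) (v 0),
           alt_swap A (v 2) (v 1), alt_swap A (v 3) (v 0), alt_swap A (v 3) (v 1),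
           alt_swap A (v 3) (v 2)]
         ring)

end Pool.Agent.H72R3.HJ
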