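import Pool.Agent.Helper540.Holo
import Pool.Agent.Helper853.Fb.Hen

/-!
# An entire map of `ℂ²` into the basin of a Henon map
-/

set_option autoImplicit false

namespace Pool.Agent.H72R3.HJ

open Set Filter Topology Metric
open Pool.Agent.Helper853.Fb

/-- the linear part of the Henon map `Hn` at the origin -/
noncomputable def A (q : ℂ × ℂ) : ℂ × ℂ := (-(q.2 / 2), q.1 / 2)

lemma norm_A (q : ℂ × ℂ) : ‖A q‖ = ‖q‖ / 2 := by
  unfold A
  rw [Prod.norm_def, Prod.norm_def]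
  simp only [norm_neg, norm_div, Complex.norm_ofNat]
  rw [max_comm, max_div_div_right (by norm_num)]

lemma A_differentiable : Differentiable ℂ A := by
  unfold A
  fun_prop

lemma norm_A_iter (n : ℕ) (q : ℂ × ℂ) : ‖A^[n] q‖ = ‖q‖ * (1 / 2) ^ n := by
  induction n with
  | zero => simp
  | succ n ih =>
    rw [Function.iterate_succ_apply', norm_A, ih, pow_succ]
    ring

/-- the approximations of the linearizing map -/
noncomputable def bn (n : ℕ) (q : ℂ × ℂ) : ℂ × ℂ := Hi^[n] (A^[n] q)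

lemma bn_differentiable (n : ℕ) : Differentiable ℂ (bn n) :=
  (Hi_iter_differentiable n).comp (A_differentiable.iterate n)

lemma bn_succ (n : ℕ) (q : ℂ × ℂ) : bn (n + 1) q = Hi (bn n (A q)) := by
  unfold bn
  rw [Function.iterate_succ_apply', Function.iterate_succ_apply]

lemma bn_add (m n : ℕ) (q : ℂ × ℂ) : bn (n + m) q = Hi^[m] (bn n (A^[m] q)) := by
  unfold bn
  rw [add_comm n m, Function.iterate_add_apply, add_comm m n, Function.iterate_add_apply]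

lemma norm_bn_le {n : ℕ} {q : ℂ × ℂ} (hq : ‖q‖ ≤ 1 / 16) : ‖bn n q‖ ≤ 2 * ‖q‖ := by
  apply Hi_iter_bound (norm_nonneg q) hq n
  rw [norm_A_iter]

lemma pow8 {a b : ℂ} {r : ℝ} (ha : ‖a‖ ≤ r) (hb : ‖b‖ ≤ r) :
    ‖a ^ 8 - b ^ 8‖ ≤ 8 * r ^ 7 * ‖a - b‖ := by
  have hr : 0 ≤ r := (norm_nonneg a).trans ha
  have e : a ^ 8 - b ^ 8 = (a ^ 7 + a ^ 6 * b + a ^ 5 * b ^ 2 + a ^ 4 * b ^ 3 + a ^ 3 * b ^ 4 +
    a ^ 2 * b ^ 5 + a * b ^ 6 + b ^ 7) * (a - b) := by ring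
  have h : ∀ i j : ℕ, i + j = 7 → ‖a ^ i * b ^ j‖ ≤ r ^ 7 := by
    intro i j hij
    rw [norm_mul, norm_pow, norm_pow]
    calc ‖a‖ ^ i * ‖b‖ ^ j ≤ r ^ i * r ^ j := by gcongr
      _ = r ^ 7 := by rw [← pow_add, hij]
  rw [e, norm_mul]
  gcongr
  have h0 := h 7 0 rfl
  have h1 := h 6 1 rfl
  have h2 := h 5 2 rfl
  have h3 := h 4 3 rfl
  have h4 := h 3 4 rfl
  have h5 := h 2 5 rfl
  have h6 := h 1 6 rfl
  have h7 := h 0 7 rfl
  simp only [pow_zero, mul_one, one_mul, pow_one] at h0 h1 h6 h7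
  refine (norm_add_le _ _).trans ?_
  refine (add_le_add_left (norm_add_le _ _) _).trans ?_
  refine (add_le_add_left (add_le_add_left (norm_add_le _ _) _) _).trans ?_
  refine (add_le_add_left (add_le_add_left (add_le_add_left (norm_add_le _ _) _) _) _).trans ?_
  refine (add_le_add_left (add_le_add_left (add_le_add_left (add_le_add_left
    (norm_add_le _ _) _) _) _) _).trans ?_
  refine (add_le_add_left (add_le_add_left (add_le_add_left (add_le_add_left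
    (add_le_add_left (norm_add_le _ _) _) _) _) _) _).trans ?_
  refine (add_le_add_left (add_le_add_left (add_le_add_left (add_le_add_left
    (add_le_add_left (add_le_add_left (norm_add_le _ _) _) _) _) _) _) _).trans ?_
  linarith

lemma Hi_lip {u w : ℂ × ℂ} (hu : ‖u‖ ≤ 1 / 16) (hw : ‖w‖ ≤ 1 / 16) :
    ‖Hi u - Hi w‖ ≤ (21 / 10) * ‖u - w‖ := by
  have h1 : ‖(u - w).1‖ ≤ ‖u - w‖ := norm_fst_le _
  have h2 : ‖(u - w).2‖ ≤ ‖u - w‖ := norm_snd_le _
  have hn := norm_nonneg (u - w)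
  have hu2 : ‖2 * u.2‖ ≤ 1 / 8 := by
    rw [norm_mul, Complex.norm_ofNat]
    have := norm_snd_le u
    linarith
  have hw2 : ‖2 * w.2‖ ≤ 1 / 8 := by
    rw [norm_mul, Complex.norm_ofNat]
    have := norm_snd_le w
    linarith
  rw [norm_prod_le_iff]
  constructor
  · have : (Hi u - Hi w).1 = 2 * (u - w).2 := by
      simp [Hi]; ring
    rw [this, norm_mul, Complex.norm_ofNat]
    linarith
  · have : (Hi u - Hi w).2 = 2 * ((2 * u.2) ^ 8 - (2 * w.2) ^ 8) - 2 * (u - w).1 := by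
      simp [Hi]; ring
    rw [this]
    refine (norm_sub_le _ _).trans ?_
    rw [norm_mul, norm_mul, Complex.norm_ofNat]
    have h3 := pow8 hu2 hw2
    have h4 : ‖2 * u.2 - 2 * w.2‖ ≤ 2 * ‖u - w‖ := by
      have : 2 * u.2 - 2 * w.2 = 2 * (u - w).2 := by simp; ring
      rw [this, norm_mul, Complex.norm_ofNat]
      linarith
    have h5 : 8 * (1 / 8 : ℝ) ^ 7 * ‖2 * u.2 - 2 * w.2‖ ≤ 8 * (1 / 8 : ℝ) ^ 7 * (2 * ‖u - w‖) := by
      gcongr
    have h6 : ‖(2 * u.2) ^ 8 - (2 * w.2) ^ 8‖ ≤ (1 / 100) * ‖u - w‖ := by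
      refine h3.trans (h5.trans ?_)
      have : 8 * (1 / 8 : ℝ) ^ 7 * (2 * ‖u - w‖) = (1 / 131072) * ‖u - w‖ := by norm_num; ring
      rw [this]
      gcongr
      norm_num
    linarith

lemma bn_diff (n : ℕ) : ∀ {q : ℂ × ℂ}, ‖q‖ ≤ 1 / 16 →
    ‖bn (n + 1) q - bn n q‖ ≤ ‖q‖ ^ 2 * (3 / 5) ^ n := by
  induction n with
  | zero =>
    intro q hq
    have e : bn (0 + 1) q - bn 0 q = (0, 2 * q.1 ^ 8) := by
      rw [bn_succ]
      unfold bn A Hi
      ext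
      · simp; ring
      · simp; ring
    have h1 : ‖q.1‖ ≤ ‖q‖ := norm_fst_le q
    have h0 := norm_nonneg q
    rw [e, norm_prod_le_iff]
    constructor
    · simp
    · simp only [norm_mul, norm_pow, Complex.norm_ofNat, pow_zero, mul_one]
      calc 2 * ‖q.1‖ ^ 8 ≤ 2 * ‖q‖ ^ 8 := by gcongr
        _ = ‖q‖ ^ 2 * (2 * ‖q‖ ^ 6) := by ring
        _ ≤ ‖q‖ ^ 2 * (2 * (1 / 16) ^ 6) := by gcongr
        _ ≤ ‖q‖ ^ 2 * 1 := by gcongr; norm_num
        _ = ‖q‖ ^ 2 := mul_one _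
  | succ n ih =>
    intro q hq
    have hA : ‖A q‖ ≤ 1 / 32 := by rw [norm_A]; linarith
    have hA' : ‖A q‖ ≤ 1 / 16 := by linarith
    have h1 := ih hA'
    have h2 := norm_bn_le (n := n + 1) hA'
    have h3 := norm_bn_le (n := n) hA'
    rw [bn_succ (n + 1) q, bn_succ n q]
    have h4 : ‖bn (n + 1) (A q)‖ ≤ 1 / 16 := by linarith
    have h5 : ‖bn n (A q)‖ ≤ 1 / 16 := by linarith
    refine (Hi_lip h4 h5).trans ?_
    calc (21 / 10) * ‖bn (n + 1) (A q) - bn n (A q)‖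
        ≤ (21 / 10) * (‖A q‖ ^ 2 * (3 / 5) ^ n) := by gcongr
      _ = (21 / 40) * (‖q‖ ^ 2 * (3 / 5) ^ n) := by rw [norm_A]; ring
      _ ≤ (3 / 5) * (‖q‖ ^ 2 * (3 / 5) ^ n) :=
          mul_le_mul_of_nonneg_right (by norm_num) (by positivity)
      _ = ‖q‖ ^ 2 * (3 / 5) ^ (n + 1) := by rw [pow_succ]; ring

lemma conv_small {q : ℂ × ℂ} (hq : ‖q‖ ≤ 1 / 16) :
    ∃ l, Tendsto (fun n => bn n q) atTop (𝓝 l) := by
  apply cauchySeq_tendsto_of_complete
  apply cauchySeq_of_le_geometric (3 / 5) (‖q‖ ^ 2) (by norm_num)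
  intro n
  rw [dist_comm, dist_eq_norm]
  exact bn_diff n hq

lemma exists_small (q : ℂ × ℂ) {r : ℝ} (hr : 0 < r) : ∃ m : ℕ, ‖A^[m] q‖ < r := by
  have h : Tendsto (fun m : ℕ => ‖q‖ * (1 / 2 : ℝ) ^ m) atTop (𝓝 (‖q‖ * 0)) :=
    (tendsto_pow_atTop_nhds_zero_of_lt_one (by norm_num) (by norm_num)).const_mul _
  rw [mul_zero] at h
  obtain ⟨m, hm⟩ := (h.eventually_lt_const hr).exists
  exact ⟨m, by rw [norm_A_iter]; exact hm⟩

lemma conv_all (q : ℂ × ℂ) : ∃ l, Tendsto (fun n => bn n q) atTop (𝓝 l) := by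
  obtain ⟨m, hm⟩ := exists_small q (show (0 : ℝ) < 1 / 16 by norm_num)
  obtain ⟨l, hl⟩ := conv_small hm.le
  refine ⟨Hi^[m] l, ?_⟩
  rw [← tendsto_add_atTop_iff_nat m]
  simp_rw [bn_add]
  exact ((Hi_iter_differentiable m).continuous.tendsto l).comp hl

/-- the linearizing map -/
noncomputable def β (q : ℂ × ℂ) : ℂ × ℂ := (conv_all q).choose

lemma β_lim (q : ℂ × ℂ) : Tendsto (fun n => bn n q) atTop (𝓝 (β q)) := (conv_all q).choose_spec

lemma β_eq (m : ℕ) (q : ℂ × ℂ) : β q = Hi^[m] (β (A^[m] q)) := by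
  have h1 := (tendsto_add_atTop_iff_nat m).2 (β_lim q)
  simp_rw [bn_add] at h1
  exact tendsto_nhds_unique h1
    (((Hi_iter_differentiable m).continuous.tendsto _).comp (β_lim (A^[m] q)))

lemma β_close {q : ℂ × ℂ} (hq : ‖q‖ ≤ 1 / 16) (n : ℕ) :
    ‖bn n q - β q‖ ≤ (5 / 2) * ‖q‖ ^ 2 * (3 / 5) ^ n := by
  have h := dist_le_of_le_geometric_of_tendsto (3 / 5) (‖q‖ ^ 2) (by norm_num)
    (fun n => by rw [dist_comm, dist_eq_norm]; exact bn_diff n hq) (β_lim q) n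
  rw [dist_eq_norm] at h
  refine h.trans (le_of_eq ?_)
  ring

lemma β_differentiableOn : DifferentiableOn ℂ β (ball 0 (1 / 16 / 2)) := by
  apply Pool.Agent.Helper540.differentiableOn_of_uniform_limit (f := bn)
    (fun n => (bn_differentiable n).differentiableOn)
  rw [Metric.tendstoUniformlyOn_iff]
  intro ε hε
  have h : Tendsto (fun n : ℕ => (5 / 2 : ℝ) * (3 / 5 : ℝ) ^ n) atTop (𝓝 ((5 / 2) * 0)) :=
    (tendsto_pow_atTop_nhds_zero_of_lt_one (by norm_num) (by norm_num)).const_mul _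
  rw [mul_zero] at h
  filter_upwards [h.eventually_lt_const hε] with n hn q hq
  rw [mem_ball_zero_iff] at hq
  rw [dist_comm, dist_eq_norm]
  refine (β_close hq.le n).trans_lt (lt_of_le_of_lt ?_ hn)
  have : ‖q‖ ^ 2 ≤ 1 := by
    have := norm_nonneg q
    nlinarith
  calc (5 / 2) * ‖q‖ ^ 2 * (3 / 5 : ℝ) ^ n ≤ (5 / 2) * 1 * (3 / 5 : ℝ) ^ n := by gcongr
    _ = _ := by ring

lemma β_differentiable : Differentiable ℂ β := by
  intro q
  obtain ⟨m, hm⟩ := exists_small q (show (0 : ℝ) < 1 / 16 / 2 by norm_num)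
  have e : β = Hi^[m] ∘ β ∘ A^[m] := by
    ext1 q
    exact β_eq m q
  rw [e]
  have h1 : DifferentiableAt ℂ β (A^[m] q) :=
    β_differentiableOn.differentiableAt (isOpen_ball.mem_nhds (by rwa [mem_ball_zero_iff]))
  exact (Hi_iter_differentiable m _).comp q (h1.comp q ((A_differentiable.iterate m) q))

lemma β_mem (q : ℂ × ℂ) : β q ∈ Ub := by
  obtain ⟨m, hm⟩ := exists_small q (show (0 : ℝ) < 1 / 16 by norm_num)
  refine ⟨m, ?_⟩
  rw [β_eq m q]
  have h : Hn^[m] (Hi^[m] (β (A^[m] q))) = β (A^[m] q) := (Hn_Hi.iterate m) _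
  rw [h]
  have h1 : ‖β (A^[m] q)‖ ≤ 2 * ‖A^[m] q‖ :=
    le_of_tendsto (β_lim _).norm (Eventually.of_forall fun n => norm_bn_le hm.le)
  linarith

lemma β_hasFDerivAt : HasFDerivAt β (ContinuousLinearMap.id ℂ (ℂ × ℂ)) 0 := by
  have h0 : β 0 = 0 := by
    have h := β_close (q := 0) (by simp) 0
    simp [bn] at h
    exact h
  rw [hasFDerivAt_iff_isLittleO_nhds_zero]
  have h1 : (fun h : ℂ × ℂ => β (0 + h) - β 0 - (ContinuousLinearMap.id ℂ (ℂ × ℂ)) h) =O[𝓝 0]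
      fun h => ‖h‖ ^ 2 := by
    apply Asymptotics.IsBigO.of_bound (5 / 2)
    filter_upwards [ball_mem_nhds (0 : ℂ × ℂ) (show (0 : ℝ) < 1 / 16 by norm_num)] with h hh
    rw [mem_ball_zero_iff] at hh
    have h2 := β_close hh.le 0
    rw [zero_add, h0, sub_zero, norm_sub_rev]
    simp only [ContinuousLinearMap.id_apply, norm_pow, norm_norm]
    simpa [bn] using h2
  refine h1.trans_isLittleO ?_
  have h3 : (fun h : ℂ × ℂ => ‖h‖ ^ 2) =o[𝓝 0] fun h => ‖h‖ ^ 1 := by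
    apply Asymptotics.IsLittleO.comp_tendsto (Asymptotics.isLittleO_pow_pow (by norm_num))
    simpa using tendsto_norm_zero (E := ℂ × ℂ)
  simp only [pow_one] at h3
  exact h3.norm_right.congr_right (fun _ => by simp) |>.of_norm_right

end Pool.Agent.H72R3.HJ
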