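import Pool.Agent.H72R3.HJ.Alt

/-!
# Calculus of the forms `ddc u`
-/

set_option autoImplicit false

namespace Pool.Agent.H72R3.HJ

open Set Filter Topology
open scoped ContDiff

variable {k : ℕ} {u w : V k → ℝ} {z : V k}

lemma mem_c (hz : z ≠ 0) : ({0}ᶜ : Set (V k)) ∈ 𝓝 z := isOpen_compl_singleton.mem_nhds hz

lemma cda (hu : ContDiffOn ℝ ∞ u {0}ᶜ) (hz : z ≠ 0) : ContDiffAt ℝ ∞ u z :=
  hu.contDiffAt (mem_c hz)

lemma fderiv_smooth (hu : ContDiffOn ℝ ∞ u {0}ᶜ) : ContDiffOn ℝ ∞ (fderiv ℝ u) {0}ᶜ :=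
  hu.fderiv_of_isOpen isOpen_compl_singleton (by simp)

lemma dir_smooth (hu : ContDiffOn ℝ ∞ u {0}ᶜ) (b : V k) :
    ContDiffOn ℝ ∞ (fun y => dir u y b) {0}ᶜ :=
  (fderiv_smooth hu).clm_apply contDiffOn_const

lemma hess_smooth (hu : ContDiffOn ℝ ∞ u {0}ᶜ) (a b : V k) :
    ContDiffOn ℝ ∞ (fun y => hess u y a b) {0}ᶜ :=
  dir_smooth (dir_smooth hu b) a

lemma diff_fderiv (hu : ContDiffOn ℝ ∞ u {0}ᶜ) (hz : z ≠ 0) : DifferentiableAt ℝ (fderiv ℝ u) z :=
  ((fderiv_smooth hu).contDiffAt (mem_c hz)).differentiableAt (by simp)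

lemma hess_eq (hu : ContDiffOn ℝ ∞ u {0}ᶜ) (hz : z ≠ 0) (a b : V k) :
    hess u z a b = fderiv ℝ (fderiv ℝ u) z a b := by
  unfold hess dir
  rw [fderiv_clm_apply (diff_fderiv hu hz) (differentiableAt_const b)]
  simp

lemma hess_symm (hu : ContDiffOn ℝ ∞ u {0}ᶜ) (hz : z ≠ 0) (a b : V k) :
    hess u z a b = hess u z b a := by
  rw [hess_eq hu hz, hess_eq hu hz]
  exact ((cda hu hz).isSymmSndFDerivAt (by
    simp only [minSmoothness_of_isRCLikeNormedField]
    exact WithTop.coe_le_coe.2 le_top)).eq a b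

lemma dir_add_right (a b : V k) : dir u z (a + b) = dir u z a + dir u z b := by
  unfold dir; exact map_add _ _ _

lemma dir_smul_right (r : ℝ) (a : V k) : dir u z (r • a) = r * dir u z a := by
  unfold dir; exact map_smul _ _ _

lemma dir_sub (hu : DifferentiableAt ℝ u z) (hw : DifferentiableAt ℝ w z) (a : V k) :
    dir (fun y => u y - w y) z a = dir u z a - dir w z a := by
  unfold dir
  rw [fderiv_fun_sub hu hw]
  rfl

lemma dir_congr (h : u =ᶠ[𝓝 z] w) (a : V k) : dir u z a = dir w z a := by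
  unfold dir
  rw [h.fderiv_eq]

lemma hess_congr (h : u =ᶠ[𝓝 z] w) (a b : V k) : hess u z a b = hess w z a b := by
  unfold hess
  apply dir_congr
  filter_upwards [h.eventuallyEq_nhds] with y hy
  exact dir_congr hy b

lemma hess_sub (hu : ContDiffOn ℝ ∞ u {0}ᶜ) (hw : ContDiffOn ℝ ∞ w {0}ᶜ) (hz : z ≠ 0)
    (a b : V k) : hess (fun y => u y - w y) z a b = hess u z a b - hess w z a b := by
  have h1 : (fun y => dir (fun y => u y - w y) y b) =ᶠ[𝓝 z]
      fun y => dir u y b - dir w y b := by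
    filter_upwards [mem_c hz] with y hy
    exact dir_sub ((cda hu hy).differentiableAt (by simp)) ((cda hw hy).differentiableAt (by simp)) b
  unfold hess
  rw [dir_congr h1, dir_sub (((dir_smooth hu b).contDiffAt (mem_c hz)).differentiableAt (by simp))
    (((dir_smooth hw b).contDiffAt (mem_c hz)).differentiableAt (by simp))]

lemma ddc_ne (hz : z ≠ 0) (v : Fin 2 → V k) : ddc u z v =
    1 / (4 * Real.pi) * (hess u z (v 1) (Complex.I • v 0) - hess u z (v 0) (Complex.I • v 1)) := by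
  unfold ddc
  rw [if_neg hz]

lemma ddc_zero (u : V k → ℝ) : ddc u 0 = 0 := by
  ext v
  unfold ddc
  rw [if_pos rfl]
  rfl

lemma ddc_sub (hu : ContDiffOn ℝ ∞ u {0}ᶜ) (hw : ContDiffOn ℝ ∞ w {0}ᶜ) (z : V k)
    (v : Fin 2 → V k) : ddc (fun y => u y - w y) z v = ddc u z v - ddc w z v := by
  rcases eq_or_ne z 0 with hz | hz
  · rw [hz, ddc_zero, ddc_zero, ddc_zero]
    simp
  · rw [ddc_ne hz, ddc_ne hz, ddc_ne hz, hess_sub hu hw hz, hess_sub hu hw hz]
    ring

lemma ddc_congr (h : u =ᶠ[𝓝 z] w) (v : Fin 2 → V k) : ddc u z v = ddc w z v := by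
  rcases eq_or_ne z 0 with hz | hz
  · rw [hz, ddc_zero, ddc_zero]
  · rw [ddc_ne hz, ddc_ne hz, hess_congr h, hess_congr h]

/-- the value at a point as an alternating map -/
noncomputable def ddcAlt (hu : ContDiffOn ℝ ∞ u {0}ᶜ) (hz : z ≠ 0) : V k [⋀^Fin 2]→ₗ[ℝ] ℝ :=
  mk2 (fun a b => ddc u z ![a, b])
    (by
      intro a b c
      simp only [ddc_ne hz, hess_eq hu hz, Matrix.cons_val_zero, Matrix.cons_val_one, smul_add,
        map_add, add_apply]
      ring)
    (by
      intro r a c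
      have e : Complex.I • r • a = r • Complex.I • a := smul_comm _ _ _
      simp only [ddc_ne hz, hess_eq hu hz, Matrix.cons_val_zero, Matrix.cons_val_one, e,
        map_smul, smul_apply, smul_eq_mul]
      ring)
    (by
      intro a b
      simp only [ddc_ne hz, Matrix.cons_val_zero, Matrix.cons_val_one]
      ring)

lemma vec2 {E : Type*} (v : Fin 2 → E) : ![v 0, v 1] = v := by
  ext i
  fin_cases i <;> rfl

lemma ddcAlt_apply (hu : ContDiffOn ℝ ∞ u {0}ᶜ) (hz : z ≠ 0) (v : Fin 2 → V k) :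
    ddcAlt hu hz v = ddc u z v := by
  show ddc u z ![v 0, v 1] = ddc u z v
  rw [vec2]

lemma ddc_smooth (hu : ContDiffOn ℝ ∞ u {0}ᶜ) (v : Fin 2 → V k) :
    ContDiffOn ℝ ∞ (fun z => ddc u z v) {0}ᶜ := by
  have h : ContDiffOn ℝ ∞ (fun z => 1 / (4 * Real.pi) *
      (hess u z (v 1) (Complex.I • v 0) - hess u z (v 0) (Complex.I • v 1))) {0}ᶜ :=
    contDiffOn_const.mul ((hess_smooth hu _ _).sub (hess_smooth hu _ _))
  exact h.congr fun z hz => ddc_ne hz v

/-- The class of functions: smooth off the origin, and logarithmically homogeneous. -/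
structure Hg (κ : ℝ) (u : V k → ℝ) : Prop where
  sm : ContDiffOn ℝ ∞ u {0}ᶜ
  hom : ∀ z, z ≠ 0 → ∀ c : ℂ, c ≠ 0 → u (c • z) = u z + κ * Real.log ‖c‖

lemma dir_comp_smul {g : V k → ℝ} {c : ℂ} (hg : DifferentiableAt ℝ g (c • z)) (a : V k) :
    dir (fun y => g (c • y)) z a = dir g (c • z) (c • a) := by
  have h1 : HasFDerivAt (fun y : V k => c • y) (c • ContinuousLinearMap.id ℝ (V k)) z :=
    (hasFDerivAt_id z).const_smul c
  have h2 := hg.hasFDerivAt.comp z h1
  unfold dir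
  have h3 : fderiv ℝ (fun y => g (c • y)) z = (fderiv ℝ g (c • z)).comp
      (c • ContinuousLinearMap.id ℝ (V k)) := h2.fderiv
  rw [h3]
  rfl

lemma Hg.dir_smul {κ : ℝ} (h : Hg κ u) (hz : z ≠ 0) {c : ℂ} (hc : c ≠ 0) (a : V k) :
    dir u (c • z) (c • a) = dir u z a := by
  have hcz : c • z ≠ 0 := smul_ne_zero hc hz
  rw [← dir_comp_smul ((cda h.sm hcz).differentiableAt (by simp))]
  have e : (fun y => u (c • y)) =ᶠ[𝓝 z] fun y => u y - (-(κ * Real.log ‖c‖)) := by
    filter_upwards [mem_c hz] with y hy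
    rw [h.hom y hy c hc]
    ring
  rw [dir_congr e, dir_sub ((cda h.sm hz).differentiableAt (by simp)) (differentiableAt_const _)]
  unfold dir
  simp

lemma Hg.hess_smul {κ : ℝ} (h : Hg κ u) (hz : z ≠ 0) {c : ℂ} (hc : c ≠ 0) (a b : V k) :
    hess u (c • z) (c • a) (c • b) = hess u z a b := by
  have hcz : c • z ≠ 0 := smul_ne_zero hc hz
  unfold hess
  rw [← dir_comp_smul (g := fun y => dir u y (c • b))
    (((dir_smooth h.sm (c • b)).contDiffAt (mem_c hcz)).differentiableAt (by simp))]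
  apply dir_congr
  filter_upwards [mem_c hz] with y hy
  exact h.dir_smul hy hc b

lemma hasDerivAt_log_norm (a : ℂ) :
    HasDerivAt (fun t : ℝ => Real.log ‖(1 : ℂ) + (t : ℂ) * a‖) a.re 0 := by
  have e : (fun t : ℝ => Real.log ‖(1 : ℂ) + (t : ℂ) * a‖) =
      fun t : ℝ => (1 / 2) * Real.log ((1 + t * a.re) ^ 2 + (t * a.im) ^ 2) := by
    ext t
    have h : (1 + t * a.re) ^ 2 + (t * a.im) ^ 2 = ‖(1 : ℂ) + (t : ℂ) * a‖ ^ 2 := by
      rw [← Complex.normSq_eq_norm_sq, Complex.normSq_apply]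
      simp
      ring
    rw [h, Real.log_pow]
    push_cast
    ring
  rw [e]
  have h1 : HasDerivAt (fun t : ℝ => (1 + t * a.re) ^ 2 + (t * a.im) ^ 2) (2 * a.re) 0 := by
    have h2 : HasDerivAt (fun t : ℝ => 1 + t * a.re) (1 * a.re) 0 :=
      ((hasDerivAt_id (0 : ℝ)).mul_const a.re).const_add 1
    have h3 : HasDerivAt (fun t : ℝ => t * a.im) (1 * a.im) 0 :=
      (hasDerivAt_id (0 : ℝ)).mul_const a.im
    have h4 := (h2.pow 2).add (h3.pow 2)
    refine h4.congr_deriv ?_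
    simp
  have h5 := (h1.log (by simp)).const_mul (1 / 2)
  refine h5.congr_deriv ?_
  simp

lemma Hg.radial {κ : ℝ} (h : Hg κ u) {y : V k} (hy : y ≠ 0) (a : ℂ) :
    dir u y (a • y) = κ * a.re := by
  have h1 : HasDerivAt (fun t : ℝ => u (y + t • (a • y))) (dir u y (a • y)) 0 := by
    have h2 : HasFDerivAt u (fderiv ℝ u y) (y + (0 : ℝ) • (a • y)) := by
      rw [zero_smul, add_zero]
      exact ((cda h.sm hy).differentiableAt (by simp)).hasFDerivAt
    have h3 : HasDerivAt (fun t : ℝ => y + t • (a • y)) ((1 : ℝ) • (a • y)) 0 :=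
      ((hasDerivAt_id (0 : ℝ)).smul_const (a • y)).const_add y
    have h4 := h2.comp_hasDerivAt 0 h3
    rw [one_smul] at h4
    exact h4
  have h2 : HasDerivAt (fun t : ℝ => u y + κ * Real.log ‖(1 : ℂ) + (t : ℂ) * a‖) (κ * a.re) 0 :=
    ((hasDerivAt_log_norm a).const_mul κ).const_add _
  have e : (fun t : ℝ => u (y + t • (a • y))) =ᶠ[𝓝 0]
      fun t : ℝ => u y + κ * Real.log ‖(1 : ℂ) + (t : ℂ) * a‖ := by
    have hc : ContinuousAt (fun t : ℝ => (1 : ℂ) + (t : ℂ) * a) 0 := by fun_prop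
    have hne : ∀ᶠ t : ℝ in 𝓝 0, (1 : ℂ) + (t : ℂ) * a ≠ 0 :=
      hc.eventually_ne (by simp)
    filter_upwards [hne] with t ht
    rw [← h.hom y hy _ ht]
    congr 1
    rw [add_smul, one_smul, mul_smul, Complex.coe_smul]
  exact h1.unique (h2.congr_of_eventuallyEq e)

lemma Hg.hess_radial {κ : ℝ} (h : Hg κ u) (hz : z ≠ 0) (w : V k) (a : ℂ) :
    hess u z w (a • z) = - dir u z (a • w) := by
  have h1 : HasFDerivAt (fun y : V k => a • y) (a • ContinuousLinearMap.id ℝ (V k)) z :=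
    (hasFDerivAt_id z).const_smul a
  have h2 := ((diff_fderiv h.sm hz).hasFDerivAt).clm_apply h1
  have h3 : fderiv ℝ (fun y => fderiv ℝ u y (a • y)) z w = 0 := by
    have e : (fun y => fderiv ℝ u y (a • y)) =ᶠ[𝓝 z] fun _ => κ * a.re := by
      filter_upwards [mem_c hz] with y hy
      exact h.radial hy a
    rw [e.fderiv_eq]
    simp
  rw [h2.fderiv] at h3
  rw [hess_eq h.sm hz]
  simp only [add_apply, ContinuousLinearMap.comp_apply,
    ContinuousLinearMap.flip_apply, smul_apply,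
    ContinuousLinearMap.id_apply] at h3
  unfold dir
  linarith

lemma Hg.isForm_ddc {κ : ℝ} (h : Hg κ u) : IsForm (ddc u) where
  zero := ddc_zero u
  alternating := by
    intro z
    rcases eq_or_ne z 0 with hz | hz
    · refine ⟨0, fun v => ?_⟩
      rw [hz, ddc_zero]
      rfl
    · exact ⟨ddcAlt h.sm hz, fun v => (ddcAlt_apply h.sm hz v).symm⟩
  smooth := ddc_smooth h.sm
  horizontal := by
    have key : ∀ (z : V k), z ≠ 0 → ∀ (c : ℂ) (w : V k),
        hess u z w (Complex.I • c • z) - hess u z (c • z) (Complex.I • w) = 0 := by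
      intro z hz c w
      rw [hess_symm h.sm hz (c • z), smul_smul, h.hess_radial hz, h.hess_radial hz, mul_smul,
        smul_comm c]
      ring
    intro z v i c hv
    rcases eq_or_ne z 0 with hz | hz
    · rw [hz, ddc_zero]
      rfl
    · rw [ddc_ne hz]
      fin_cases i
      · simp only [Fin.zero_eta] at hv
        rw [hv, key z hz, mul_zero]
      · simp only [Fin.mk_one] at hv
        have := key z hz c (v 0)
        rw [hv]
        have e : hess u z (c • z) (Complex.I • v 0) - hess u z (v 0) (Complex.I • c • z) = 0 := by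
          linarith
        rw [e, mul_zero]
  invariant := by
    intro z v c hc
    rcases eq_or_ne z 0 with hz | hz
    · rw [hz, smul_zero, ddc_zero]
      rfl
    · rw [ddc_ne hz, ddc_ne (smul_ne_zero hc hz), smul_comm Complex.I c, smul_comm Complex.I c,
        h.hess_smul hz hc, h.hess_smul hz hc]

end Pool.Agent.H72R3.HJ
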