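import Pool.Agent.H72R3.HJ.Exact

/-!
# The potentials
-/

set_option autoImplicit false

namespace Pool.Agent.H72R3.HJ

open Set Filter Topology
open scoped ContDiff

/-- squared norm -/
noncomputable def N (z : V 4) : ℝ := ∑ i, ‖z i‖ ^ 2

/-- real linear functionals -/
noncomputable def p1 : V 4 →L[ℝ] ℝ :=
  Complex.reCLM.comp (ContinuousLinearMap.proj 1 - (3 : ℝ) • ContinuousLinearMap.proj 0)

/-- real linear functionals -/
noncomputable def p2 : V 4 →L[ℝ] ℝ :=
  Complex.imCLM.comp (ContinuousLinearMap.proj 1 - (3 : ℝ) • ContinuousLinearMap.proj 0)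

/-- real linear functionals -/
noncomputable def p3 : V 4 →L[ℝ] ℝ := Complex.reCLM.comp (ContinuousLinearMap.proj 2)

/-- real linear functionals -/
noncomputable def p4 : V 4 →L[ℝ] ℝ := Complex.imCLM.comp (ContinuousLinearMap.proj 2)

/-- squared distance to the plane -/
noncomputable def Q (z : V 4) : ℝ := p1 z ^ 2 + p2 z ^ 2 + p3 z ^ 2 + p4 z ^ 2

/-- polarization -/
noncomputable def S (z a : V 4) : ℝ := 2 * (p1 z * p1 a + p2 z * p2 a + p3 z * p3 a + p4 z * p4 a)

lemma Q_eq (z : V 4) : Q z = ‖z 1 - 3 * z 0‖ ^ 2 + ‖z 2‖ ^ 2 := by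
  rw [← Complex.normSq_eq_norm_sq, ← Complex.normSq_eq_norm_sq, Complex.normSq_apply,
    Complex.normSq_apply]
  unfold Q p1 p2 p3 p4
  simp
  ring

lemma Q_contDiff : ContDiff ℝ ∞ Q := by
  unfold Q
  exact (((p1.contDiff.pow 2).add (p2.contDiff.pow 2)).add (p3.contDiff.pow 2)).add
    (p4.contDiff.pow 2)

lemma Q_nonneg (z : V 4) : 0 ≤ Q z := by unfold Q; positivity

lemma N_contDiff : ContDiff ℝ ∞ N := by
  unfold N
  apply ContDiff.sum
  intro i _
  exact ContDiff.norm_sq ℝ (contDiff_apply ℝ ℂ i)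

lemma N_nonneg (z : V 4) : 0 ≤ N z := Finset.sum_nonneg fun i _ => by positivity

lemma N_pos {z : V 4} (hz : z ≠ 0) : 0 < N z := by
  obtain ⟨i, hi⟩ := Function.ne_iff.1 hz
  have h1 : 0 < ‖z i‖ ^ 2 := by
    have := norm_pos_iff.2 hi
    positivity
  exact lt_of_lt_of_le h1
    (Finset.single_le_sum (f := fun i => ‖z i‖ ^ 2) (fun j _ => by positivity) (Finset.mem_univ i))

lemma N_smul (z : V 4) (c : ℂ) : N (c • z) = ‖c‖ ^ 2 * N z := by
  unfold N
  rw [Finset.mul_sum]
  refine Finset.sum_congr rfl fun i _ => ?_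
  rw [Pi.smul_apply, smul_eq_mul, norm_mul, mul_pow]

lemma Q_smul (z : V 4) (c : ℂ) : Q (c • z) = ‖c‖ ^ 2 * Q z := by
  rw [Q_eq, Q_eq]
  have e : (c • z) 1 - 3 * (c • z) 0 = c * (z 1 - 3 * z 0) := by
    simp only [Pi.smul_apply, smul_eq_mul]
    ring
  rw [e, Pi.smul_apply, smul_eq_mul, norm_mul, norm_mul]
  ring

/-- potential of the Fubini-Study form -/
noncomputable def L (z : V 4) : ℝ := Real.log (N z)

lemma Hg_L : Hg 2 L where
  sm := by
    intro z hz
    exact ((N_contDiff.contDiffAt.log (N_pos hz).ne')).contDiffWithinAt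
  hom := by
    intro z hz c hc
    unfold L
    have h1 := norm_pos_iff.2 hc
    rw [N_smul, Real.log_mul (by positivity) (N_pos hz).ne', Real.log_pow]
    push_cast
    ring

/-- cut-off logarithm -/
noncomputable def G (s : ℝ) : ℝ := -(Real.smoothTransition (20 * s - 1) * Real.log s)

lemma G_contDiff : ContDiff ℝ ∞ G := by
  rw [contDiff_iff_contDiffAt]
  intro s
  rcases le_or_gt s 0 with hs | hs
  · have e : G =ᶠ[𝓝 s] fun _ => 0 := by
      have h : ∀ᶠ t in 𝓝 s, t < 1 / 20 := eventually_lt_nhds (by linarith)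
      filter_upwards [h] with t ht
      unfold G
      rw [Real.smoothTransition.zero_of_nonpos (by linarith)]
      simp
    exact contDiffAt_const.congr_of_eventuallyEq e
  · unfold G
    have h1 : ContDiffAt ℝ ∞ (fun s : ℝ => Real.smoothTransition (20 * s - 1)) s :=
      Real.smoothTransition.contDiffAt.comp s (by fun_prop)
    exact (h1.mul (contDiffAt_id.log hs.ne')).neg

lemma G_eq {s : ℝ} (hs : 1 / 10 ≤ s) : G s = -Real.log s := by
  unfold G
  rw [Real.smoothTransition.one_of_one_le (by linarith), one_mul]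

/-- the global potential -/
noncomputable def vv (z : V 4) : ℝ := G (Q z / N z)

lemma Hg_vv : Hg 0 vv where
  sm := by
    intro z hz
    have h : ContDiffAt ℝ ∞ (fun z => Q z / N z) z :=
      Q_contDiff.contDiffAt.div N_contDiff.contDiffAt (N_pos hz).ne'
    exact (G_contDiff.contDiffAt.comp z h).contDiffWithinAt
  hom := by
    intro z hz c hc
    unfold vv
    have h1 : ‖c‖ ^ 2 ≠ 0 := by
      have := norm_pos_iff.2 hc
      positivity
    rw [N_smul, Q_smul, mul_div_mul_left _ _ h1]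
    ring

lemma Hg.sub {k : ℕ} {κ μ : ℝ} {u w : V k → ℝ} (hu : Hg κ u) (hw : Hg μ w) :
    Hg (κ - μ) fun y => u y - w y where
  sm := hu.sm.sub hw.sm
  hom := by
    intro z hz c hc
    rw [hu.hom z hz c hc, hw.hom z hz c hc]
    ring

lemma dir_line {f : V 4 → ℝ} {z a : V 4} {d : ℝ} (hf : DifferentiableAt ℝ f z)
    (h : HasDerivAt (fun t : ℝ => f (z + t • a)) d 0) : dir f z a = d := by
  have h2 : HasFDerivAt f (fderiv ℝ f z) (z + (0 : ℝ) • a) := by
    rw [zero_smul, add_zero]
    exact hf.hasFDerivAt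
  have h3 : HasDerivAt (fun t : ℝ => z + t • a) ((1 : ℝ) • a) 0 :=
    ((hasDerivAt_id (0 : ℝ)).smul_const a).const_add z
  have h4 := h2.comp_hasDerivAt 0 h3
  rw [one_smul] at h4
  exact h4.unique h

lemma hasDerivAt_lin (p : V 4 →L[ℝ] ℝ) (z a : V 4) :
    HasDerivAt (fun t : ℝ => p (z + t • a)) (p a) 0 := by
  have h : HasDerivAt (fun t : ℝ => p z + t * p a) (1 * p a) 0 :=
    ((hasDerivAt_id (0 : ℝ)).mul_const (p a)).const_add _
  rw [one_mul] at h
  refine h.congr_of_eventuallyEq (Eventually.of_forall fun t => ?_)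
  simp

lemma hasDerivAt_Q (z a : V 4) : HasDerivAt (fun t : ℝ => Q (z + t • a)) (S z a) 0 := by
  have h := ((((hasDerivAt_lin p1 z a).pow 2).add ((hasDerivAt_lin p2 z a).pow 2)).add
    ((hasDerivAt_lin p3 z a).pow 2)).add ((hasDerivAt_lin p4 z a).pow 2)
  refine h.congr_deriv ?_
  unfold S
  simp
  ring

lemma hasDerivAt_S (z a b : V 4) : HasDerivAt (fun t : ℝ => S (z + t • a) b) (S a b) 0 := by
  have h := (((((hasDerivAt_lin p1 z a).mul_const (p1 b)).add
    ((hasDerivAt_lin p2 z a).mul_const (p2 b))).add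
    ((hasDerivAt_lin p3 z a).mul_const (p3 b))).add
    ((hasDerivAt_lin p4 z a).mul_const (p4 b))).const_mul 2
  exact h

lemma dir_logQ {z : V 4} (hz : Q z ≠ 0) (a : V 4) :
    dir (fun y => Real.log (Q y)) z a = S z a / Q z := by
  apply dir_line
  · exact ((Q_contDiff.contDiffAt.log hz).differentiableAt (n := ∞) (by simp))
  · have h := hasDerivAt_Q z a
    have e : Q (z + (0 : ℝ) • a) = Q z := by simp
    have h2 := h.log (by rw [e]; exact hz)
    rw [e] at h2
    exact h2

lemma hess_logQ {z : V 4} (hz : Q z ≠ 0) (a b : V 4) :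
    hess (fun y => Real.log (Q y)) z a b = (S a b * Q z - S z b * S z a) / Q z ^ 2 := by
  have e : (fun y => dir (fun y => Real.log (Q y)) y b) =ᶠ[𝓝 z] fun y => S y b / Q y := by
    have h : ∀ᶠ y in 𝓝 z, Q y ≠ 0 := Q_contDiff.continuous.continuousAt.eventually_ne hz
    filter_upwards [h] with y hy
    exact dir_logQ hy b
  unfold hess
  rw [dir_congr e]
  apply dir_line
  · have hS : ContDiff ℝ ∞ fun y => S y b := by
      unfold S
      exact contDiff_const.mul ((((p1.contDiff.mul contDiff_const).add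
        (p2.contDiff.mul contDiff_const)).add (p3.contDiff.mul contDiff_const)).add
        (p4.contDiff.mul contDiff_const))
    exact (hS.contDiffAt.div Q_contDiff.contDiffAt hz).differentiableAt (n := ∞) (by simp)
  · have e0 : z + (0 : ℝ) • a = z := by simp
    have h := (hasDerivAt_S z a b).div (hasDerivAt_Q z a) (by rw [e0]; exact hz)
    simp only [e0] at h
    exact h

/-- real part of the minor -/
noncomputable def mR (z a : V 4) : ℝ := p1 z * p3 a - p2 z * p4 a - p3 z * p1 a + p4 z * p2 a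

/-- imaginary part of the minor -/
noncomputable def mI (z a : V 4) : ℝ := p1 z * p4 a + p2 z * p3 a - p3 z * p2 a - p4 z * p1 a

lemma ddc_logQ {z : V 4} (hz0 : z ≠ 0) (hz : Q z ≠ 0) (a b : V 4) :
    ddc (fun y => Real.log (Q y)) z ![a, b] =
      (1 / (Real.pi * Q z ^ 2)) * (mR z a * mI z b - mI z a * mR z b) := by
  have i1 : ∀ a : V 4, p1 (Complex.I • a) = - p2 a := by intro a; unfold p1 p2; simp; ring
  have i2 : ∀ a : V 4, p2 (Complex.I • a) = p1 a := by intro a; unfold p1 p2; simp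
  have i3 : ∀ a : V 4, p3 (Complex.I • a) = - p4 a := by intro a; unfold p3 p4; simp
  have i4 : ∀ a : V 4, p4 (Complex.I • a) = p3 a := by intro a; unfold p3 p4; simp
  rw [ddc_ne hz0]
  show 1 / (4 * Real.pi) * (hess (fun y => Real.log (Q y)) z b (Complex.I • a) -
    hess (fun y => Real.log (Q y)) z a (Complex.I • b)) = _
  rw [hess_logQ hz, hess_logQ hz]
  have hpi := Real.pi_pos
  have key : (S b (Complex.I • a) * Q z - S z (Complex.I • a) * S z b) -
      (S a (Complex.I • b) * Q z - S z (Complex.I • b) * S z a) =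
      4 * (mR z a * mI z b - mI z a * mR z b) := by
    unfold S Q mR mI
    simp only [i1, i2, i3, i4]
    ring
  rw [← sub_div, key]
  field_simp

/-- the truncated potential of the degenerate form -/
noncomputable def Lv (y : V 4) : ℝ := L y - vv y

lemma wedge_Lv {z : V 4} (hz : z ≠ 0) (h : 1 / 10 < Q z / N z) :
    wedge (ddc Lv) (ddc Lv) z = 0 := by
  have hQ : ∀ y : V 4, 1 / 10 < Q y / N y → Q y ≠ 0 := by
    intro y hy h0
    rw [h0, zero_div] at hy
    norm_num at hy
  have hcont : ContinuousAt (fun y : V 4 => Q y / N y) z :=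
    Q_contDiff.continuous.continuousAt.div N_contDiff.continuous.continuousAt (N_pos hz).ne'
  have e : Lv =ᶠ[𝓝 z] fun y => Real.log (Q y) := by
    filter_upwards [mem_c hz, hcont.eventually_const_lt h] with y hy0 hy
    unfold Lv L vv
    rw [G_eq hy.le, Real.log_div (hQ y hy) (N_pos hy0).ne']
    ring
  have key : ∀ a b : V 4, ddc Lv z ![a, b] =
      (1 / (Real.pi * Q z ^ 2)) * (mR z a * mI z b - mI z a * mR z b) := by
    intro a b
    rw [ddc_congr e]
    exact ddc_logQ hz (hQ z h) a b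
  ext v
  unfold wedge
  simp only [key]
  show _ = (0 : ℝ)
  ring

end Pool.Agent.H72R3.HJ
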