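import Mathlib

/-!
# Closed currents on `ℙ^k` and Henon-type automorphisms of `ℂ^k`

Points of `ℙ^k` are lines of `ℂ^(k+1)`; `ℂ^k` sits in `ℙ^k` as `w ↦ [1 : w]`. Differential forms on
`ℙ^k` are given by their pullbacks to `ℂ^(k+1) ∖ {0}`.
-/

set_option autoImplicit false

namespace Pool.Agent.H72R3.HJ

open Set Filter Topology
open scoped ContDiff

/-- The space `ℂ^(k+1)` of homogeneous coordinates of `ℙ^k`. -/
abbrev V (k : ℕ) : Type := Fin (k + 1) → ℂ

/-- The real valued functions of a point `z` and `n` vectors of `ℂ^(k+1)`. -/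
abbrev FormFun (k n : ℕ) : Type := V k → (Fin n → V k) → ℝ

/-- `θ` is a smooth real differential form of degree `n` on `ℙ^k`, given by its pullback to
`ℂ^(k+1) ∖ {0}` (and the value `0` at the origin): it is alternating and real multilinear in the
vectors, smooth in `z ≠ 0`, it vanishes when one of the vectors is tangent to the fibre of
`ℂ^(k+1) ∖ {0} → ℙ^k`, and it is invariant under the scalings `z ↦ c z`. -/
structure IsForm {k n : ℕ} (θ : FormFun k n) : Prop where
  zero : θ 0 = 0
  alternating : ∀ z, ∃ a : V k [⋀^Fin n]→ₗ[ℝ] ℝ, ∀ v, θ z v = a v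
  smooth : ∀ v, ContDiffOn ℝ ∞ (fun z => θ z v) {0}ᶜ
  horizontal : ∀ (z : V k) (v : Fin n → V k) (i : Fin n) (c : ℂ), v i = c • z → θ z v = 0
  invariant : ∀ (z : V k) (v : Fin n → V k) (c : ℂ), c ≠ 0 → θ (c • z) (fun i => c • v i) = θ z v

/-- The derivative of `u` at `z` in the direction `a`. -/
noncomputable def dir {k : ℕ} (u : V k → ℝ) (z a : V k) : ℝ := fderiv ℝ u z a

/-- The exterior derivative. -/
noncomputable def extD {k n : ℕ} (η : FormFun k n) : FormFun k (n + 1) := fun z v =>
  if z = 0 then 0 else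
    ∑ i : Fin (n + 1), (-1) ^ (i : ℕ) * dir (fun y => η y (i.removeNth v)) z (v i)

/-- The second derivative of `u` at `z` in the directions `a` and `b`. -/
noncomputable def hess {k : ℕ} (u : V k → ℝ) (z a b : V k) : ℝ :=
  dir (fun y => dir u y b) z a

/-- The `2`-form `(i / 2π) ∂∂̄ u` on `ℂ^(k+1) ∖ {0}`. -/
noncomputable def ddc {k : ℕ} (u : V k → ℝ) : FormFun k 2 := fun z v =>
  if z = 0 then 0 else
    1 / (4 * Real.pi) * (hess u z (v 1) (Complex.I • v 0) - hess u z (v 0) (Complex.I • v 1))

/-- The Fubini-Study form `ω = (i / 2π) ∂∂̄ log ‖z‖²` of `ℙ^k`. -/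
noncomputable def omega (k : ℕ) : FormFun k 2 := ddc fun z => Real.log (∑ i, ‖z i‖ ^ 2)

/-- The exterior product of two `2`-forms. -/
def wedge {k : ℕ} (α β : FormFun k 2) : FormFun k 4 := fun z v =>
  α z ![v 0, v 1] * β z ![v 2, v 3] - α z ![v 0, v 2] * β z ![v 1, v 3] +
    α z ![v 0, v 3] * β z ![v 1, v 2] + α z ![v 1, v 2] * β z ![v 0, v 3] -
    α z ![v 1, v 3] * β z ![v 0, v 2] + α z ![v 2, v 3] * β z ![v 0, v 1]

/-- `T` is a closed real current on `ℙ^k` (of dimension `n + 1`): a linear functional on the smooth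
real forms of degree `n + 1` which vanishes on the exact forms. -/
structure IsClosedCurrent {k n : ℕ} (T : FormFun k (n + 1) → ℝ) : Prop where
  add : ∀ a b, IsForm a → IsForm b → T (a + b) = T a + T b
  smul : ∀ (c : ℝ) a, IsForm a → T (c • a) = c * T a
  closed : ∀ η : FormFun k n, IsForm η → T (extD η) = 0

/-- The cone in `ℂ^(k+1)` over the subset `S` of `ℂ^k ⊂ ℙ^k`. -/
def cone {k : ℕ} (S : Set (Fin k → ℂ)) : Set (V k) :=
  {z | ∃ w ∈ S, ∃ c : ℂ, z = c • (Fin.cons 1 w : V k)}

/-- The support of `T` is contained in the closure in `ℙ^k` of the subset `S` of `ℂ^k`: `T` vanishes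
on the forms which vanish in a neighbourhood of this closure. -/
def IsSupportedInClosure {k n : ℕ} (T : FormFun k n → ℝ) (S : Set (Fin k → ℂ)) : Prop :=
  ∀ θ : FormFun k n, IsForm θ →
    (∀ z ∈ closure (cone S), z ≠ 0 → ∀ᶠ y in 𝓝 z, θ y = 0) → T θ = 0

/-- A polynomial self-map of `ℂ^k`. -/
abbrev PolyMap (k : ℕ) : Type := Fin k → MvPolynomial (Fin k) ℂ

/-- The map `ℂ^k → ℂ^k` given by the polynomials. -/
noncomputable def toFun {k : ℕ} (P : PolyMap k) (z : Fin k → ℂ) : Fin k → ℂ :=
  fun i => MvPolynomial.eval z (P i)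

/-- The algebraic degree. -/
noncomputable def degree {k : ℕ} (P : PolyMap k) : ℕ := Finset.univ.sup fun i => (P i).totalDegree

/-- The cone over the indeterminacy set of the extension of `P` to `ℙ^k`: the extension is
`[t : z] ↦ [t^d : t^d P(z / t)]`, `d` the degree of `P`, so that the indeterminacy points are the
points `[0 : z]`, `z ≠ 0`, at which the homogeneous parts of degree `d` of all the components of
`P` vanish. -/
def indetCone {k : ℕ} (P : PolyMap k) : Set (Fin k → ℂ) :=
  {z | ∀ i, MvPolynomial.eval z (MvPolynomial.homogeneousComponent (degree P) (P i)) = 0}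

/-- `P` is a Henon-type automorphism of `ℂ^k`, with inverse `Q`, whose indeterminacy sets are
linear: `P` is a polynomial automorphism of degree at least `2` (so it does not extend to an
automorphism of `ℙ^k`), its indeterminacy set is disjoint from the one of its inverse `Q`, and these
sets are projective linear subspaces of the hyperplane at infinity, of dimensions `k - p - 1` and
`p - 1` (their cones are linear subspaces of dimensions `k - p` and `p`). -/
structure IsHenonType {k : ℕ} (P Q : PolyMap k) (p : ℕ) : Prop where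
  left_inv : ∀ z, toFun Q (toFun P z) = z
  right_inv : ∀ z, toFun P (toFun Q z) = z
  two_le_degree : 2 ≤ degree P
  disjoint : indetCone P ∩ indetCone Q = {0}
  one_le : 1 ≤ p
  lt : p < k
  dim_indet : ∃ W : Submodule ℂ (Fin k → ℂ), (W : Set (Fin k → ℂ)) = indetCone P ∧
    Module.finrank ℂ W = k - p
  dim_indet_inv : ∃ W : Submodule ℂ (Fin k → ℂ), (W : Set (Fin k → ℂ)) = indetCone Q ∧
    Module.finrank ℂ W = p

/-- The set of the points with bounded forward orbit. -/
def filledJulia {k : ℕ} (P : PolyMap k) : Set (Fin k → ℂ) :=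
  {z | Bornology.IsBounded (range fun n : ℕ => (toFun P)^[n] z)}

end Pool.Agent.H72R3.HJ
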