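import Pool.Agent.H72R3.HJ.Calc

/-!
# Exactness of products
-/

set_option autoImplicit false

namespace Pool.Agent.H72R3.HJ

open Set Filter Topology
open scoped ContDiff

variable {k : ℕ} {u w : V k → ℝ} {z : V k}

lemma dir_mul {f g : V k → ℝ} (hf : DifferentiableAt ℝ f z) (hg : DifferentiableAt ℝ g z)
    (a : V k) : dir (fun y => f y * g y) z a = dir f z a * g z + f z * dir g z a := by
  unfold dir
  rw [fderiv_fun_mul hf hg]
  simp
  ring

lemma dir_add {f g : V k → ℝ} (hf : DifferentiableAt ℝ f z) (hg : DifferentiableAt ℝ g z)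
    (a : V k) : dir (fun y => f y + g y) z a = dir f z a + dir g z a := by
  unfold dir
  rw [fderiv_fun_add hf hg]
  rfl

lemma dir_const_mul {f : V k → ℝ} (hf : DifferentiableAt ℝ f z) (c : ℝ) (a : V k) :
    dir (fun y => c * f y) z a = c * dir f z a := by
  unfold dir
  rw [fderiv_const_mul hf]
  rfl

/-- the values of `dc u` -/
noncomputable def al (u : V k → ℝ) (z a : V k) : ℝ := -(1 / (4 * Real.pi)) * dir u z (Complex.I • a)

lemma al_smooth (hu : ContDiffOn ℝ ∞ u {0}ᶜ) (a : V k) :
    ContDiffOn ℝ ∞ (fun z => al u z a) {0}ᶜ :=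
  contDiffOn_const.mul (dir_smooth hu _)

/-- the linear form `dc u` at a point -/
noncomputable def alLin (u : V k → ℝ) (z : V k) : V k →ₗ[ℝ] ℝ where
  toFun a := al u z a
  map_add' := by
    intro a b
    unfold al
    rw [smul_add, dir_add_right]
    ring
  map_smul' := by
    intro r a
    unfold al
    rw [smul_comm, dir_smul_right]
    simp
    ring

lemma closed3 (hw : ContDiffOn ℝ ∞ w {0}ᶜ) (hz : z ≠ 0) (a b c : V k) :
    dir (fun y => ddc w y ![b, c]) z a - dir (fun y => ddc w y ![a, c]) z b +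
      dir (fun y => ddc w y ![a, b]) z c = 0 := by
  have key : ∀ x p q : V k, dir (fun y => ddc w y ![p, q]) z x =
      1 / (4 * Real.pi) * (hess (fun y => dir w y (Complex.I • p)) z x q -
        hess (fun y => dir w y (Complex.I • q)) z x p) := by
    intro x p q
    have e : (fun y => ddc w y ![p, q]) =ᶠ[𝓝 z] fun y => 1 / (4 * Real.pi) *
        (hess w y q (Complex.I • p) - hess w y p (Complex.I • q)) := by
      filter_upwards [mem_c hz] with y hy
      rw [ddc_ne hy]
      rfl
    have d1 : DifferentiableAt ℝ (fun y => hess w y q (Complex.I • p)) z :=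
      ((hess_smooth hw _ _).contDiffAt (mem_c hz)).differentiableAt (by simp)
    have d2 : DifferentiableAt ℝ (fun y => hess w y p (Complex.I • q)) z :=
      ((hess_smooth hw _ _).contDiffAt (mem_c hz)).differentiableAt (by simp)
    rw [dir_congr e, dir_const_mul (d1.fun_sub d2), dir_sub d1 d2]
    rfl
  rw [key, key, key, hess_symm (dir_smooth hw (Complex.I • b)) hz a c,
    hess_symm (dir_smooth hw (Complex.I • c)) hz a b,
    hess_symm (dir_smooth hw (Complex.I • a)) hz b c]
  ring

/-- the form `dc u ∧ ddc w` -/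
noncomputable def eta (u w : V k → ℝ) : FormFun k 3 := fun z v =>
  if z = 0 then 0 else
    al u z (v 0) * ddc w z ![v 1, v 2] - al u z (v 1) * ddc w z ![v 0, v 2] +
      al u z (v 2) * ddc w z ![v 0, v 1]

lemma eta_ne (hz : z ≠ 0) (v : Fin 3 → V k) : eta u w z v =
    al u z (v 0) * ddc w z ![v 1, v 2] - al u z (v 1) * ddc w z ![v 0, v 2] +
      al u z (v 2) * ddc w z ![v 0, v 1] := by
  unfold eta
  rw [if_neg hz]

lemma eta_zero : eta u w 0 = 0 := by
  ext v
  unfold eta
  rw [if_pos rfl]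
  rfl

lemma smul_vec2 (c : ℂ) (a b : V k) : ![c • a, c • b] = fun i => c • (![a, b] : Fin 2 → V k) i := by
  ext i
  fin_cases i <;> rfl

lemma IsForm.smul2 {θ : FormFun k 2} (h : IsForm θ) (z a b : V k) {c : ℂ} (hc : c ≠ 0) :
    θ (c • z) ![c • a, c • b] = θ z ![a, b] := by
  rw [smul_vec2, h.invariant z _ c hc]

lemma isForm_eta {κ : ℝ} (hu : Hg 0 u) (hw : Hg κ w) : IsForm (eta u w) where
  zero := eta_zero
  alternating := by
    intro z
    rcases eq_or_ne z 0 with hz | hz
    · refine ⟨0, fun v => ?_⟩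
      rw [hz, eta_zero]
      rfl
    · refine ⟨w12 (alLin u z) (ddcAlt hw.sm hz), fun v => ?_⟩
      rw [eta_ne hz]
      show _ = al u z (v 0) * (ddcAlt hw.sm hz) ![v 1, v 2] -
        al u z (v 1) * (ddcAlt hw.sm hz) ![v 0, v 2] + al u z (v 2) * (ddcAlt hw.sm hz) ![v 0, v 1]
      rw [ddcAlt_apply, ddcAlt_apply, ddcAlt_apply]
  smooth := by
    intro v
    have h : ContDiffOn ℝ ∞ (fun z => al u z (v 0) * ddc w z ![v 1, v 2] -
        al u z (v 1) * ddc w z ![v 0, v 2] + al u z (v 2) * ddc w z ![v 0, v 1]) {0}ᶜ :=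
      (((al_smooth hu.sm _).mul (ddc_smooth hw.sm _)).sub
        ((al_smooth hu.sm _).mul (ddc_smooth hw.sm _))).add
        ((al_smooth hu.sm _).mul (ddc_smooth hw.sm _))
    exact h.congr fun z hz => eta_ne hz v
  horizontal := by
    intro z v i c hv
    rcases eq_or_ne z 0 with hz | hz
    · rw [hz, eta_zero]
      rfl
    · have ha : al u z (c • z) = 0 := by
        unfold al
        rw [smul_smul, hu.radial hz]
        ring
      have h1 : ∀ b, ddc w z ![c • z, b] = 0 := fun b => hw.isForm_ddc.horizontal z _ 0 c rfl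
      have h2 : ∀ b, ddc w z ![b, c • z] = 0 := fun b => hw.isForm_ddc.horizontal z _ 1 c rfl
      rw [eta_ne hz]
      rcases fin3 i with rfl | rfl | rfl <;> rw [hv] <;> simp [ha, h1, h2]
  invariant := by
    intro z v c hc
    rcases eq_or_ne z 0 with hz | hz
    · rw [hz, smul_zero, eta_zero]
      rfl
    · have ha : ∀ a, al u (c • z) (c • a) = al u z a := by
        intro a
        unfold al
        rw [smul_comm, hu.dir_smul hz hc]
      rw [eta_ne hz, eta_ne (smul_ne_zero hc hz), ha, ha, ha, hw.isForm_ddc.smul2 _ _ _ hc,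
        hw.isForm_ddc.smul2 _ _ _ hc, hw.isForm_ddc.smul2 _ _ _ hc]

lemma isForm_wedge {α β : FormFun k 2} (h1 : IsForm α) (h2 : IsForm β) : IsForm (wedge α β) where
  zero := by
    ext v
    unfold wedge
    rw [h1.zero]
    simp
  alternating := by
    intro z
    obtain ⟨a, ha⟩ := h1.alternating z
    obtain ⟨b, hb⟩ := h2.alternating z
    refine ⟨w22 a b, fun v => ?_⟩
    unfold wedge
    simp only [ha, hb]
    rfl
  smooth := by
    intro v
    unfold wedge
    exact ((((((h1.smooth _).mul (h2.smooth _)).sub ((h1.smooth _).mul (h2.smooth _))).add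
      ((h1.smooth _).mul (h2.smooth _))).add ((h1.smooth _).mul (h2.smooth _))).sub
      ((h1.smooth _).mul (h2.smooth _))).add ((h1.smooth _).mul (h2.smooth _))
  horizontal := by
    intro z v i c hv
    have a1 : ∀ b, α z ![c • z, b] = 0 := fun b => h1.horizontal z _ 0 c rfl
    have a2 : ∀ b, α z ![b, c • z] = 0 := fun b => h1.horizontal z _ 1 c rfl
    have b1 : ∀ b, β z ![c • z, b] = 0 := fun b => h2.horizontal z _ 0 c rfl
    have b2 : ∀ b, β z ![b, c • z] = 0 := fun b => h2.horizontal z _ 1 c rfl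
    unfold wedge
    rcases fin4 i with rfl | rfl | rfl | rfl <;> rw [hv] <;> simp [a1, a2, b1, b2]
  invariant := by
    intro z v c hc
    unfold wedge
    simp only [h1.smul2 _ _ _ hc, h2.smul2 _ _ _ hc]

lemma extD_eta (hu : ContDiffOn ℝ ∞ u {0}ᶜ) (hw : ContDiffOn ℝ ∞ w {0}ᶜ) :
    extD (eta u w) = wedge (ddc u) (ddc w) := by
  ext z v
  rcases eq_or_ne z 0 with hz | hz
  · unfold extD wedge
    rw [if_pos hz, hz, ddc_zero]
    simp
  have r0 : (0 : Fin 4).removeNth v = ![v 1, v 2, v 3] := by ext j; fin_cases j <;> rfl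
  have r1 : (1 : Fin 4).removeNth v = ![v 0, v 2, v 3] := by ext j; fin_cases j <;> rfl
  have r2 : (2 : Fin 4).removeNth v = ![v 0, v 1, v 3] := by ext j; fin_cases j <;> rfl
  have r3 : (3 : Fin 4).removeNth v = ![v 0, v 1, v 2] := by ext j; fin_cases j <;> rfl
  have dA : ∀ a, DifferentiableAt ℝ (fun y => al u y a) z := fun a =>
    ((al_smooth hu a).contDiffAt (mem_c hz)).differentiableAt (by simp)
  have dT : ∀ v, DifferentiableAt ℝ (fun y => ddc w y v) z := fun v =>
    ((ddc_smooth hw v).contDiffAt (mem_c hz)).differentiableAt (by simp)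
  have key : ∀ a b c d : V k, dir (fun y => eta u w y ![a, b, c]) z d =
      (dir (fun y => al u y a) z d * ddc w z ![b, c] + al u z a * dir (fun y => ddc w y ![b, c]) z d)
      - (dir (fun y => al u y b) z d * ddc w z ![a, c] + al u z b * dir (fun y => ddc w y ![a, c]) z d)
      + (dir (fun y => al u y c) z d * ddc w z ![a, b] +
        al u z c * dir (fun y => ddc w y ![a, b]) z d) := by
    intro a b c d
    have e : (fun y => eta u w y ![a, b, c]) =ᶠ[𝓝 z] fun y =>
        al u y a * ddc w y ![b, c] - al u y b * ddc w y ![a, c] + al u y c * ddc w y ![a, b] := by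
      filter_upwards [mem_c hz] with y hy
      rw [eta_ne hy]
      rfl
    rw [dir_congr e, dir_add (((dA a).fun_mul (dT _)).fun_sub ((dA b).fun_mul (dT _)))
      ((dA c).fun_mul (dT _)), dir_sub ((dA a).fun_mul (dT _)) ((dA b).fun_mul (dT _)),
      dir_mul (dA a) (dT _), dir_mul (dA b) (dT _), dir_mul (dA c) (dT _)]
  have hA : ∀ a d : V k, dir (fun y => al u y a) z d =
      -(1 / (4 * Real.pi)) * hess u z d (Complex.I • a) := by
    intro a d
    exact dir_const_mul
      (((dir_smooth hu (Complex.I • a)).contDiffAt (mem_c hz)).differentiableAt (by simp)) _ _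
  have c012 := closed3 hw hz (v 0) (v 1) (v 2)
  have c013 := closed3 hw hz (v 0) (v 1) (v 3)
  have c023 := closed3 hw hz (v 0) (v 2) (v 3)
  have c123 := closed3 hw hz (v 1) (v 2) (v 3)
  unfold extD wedge
  rw [if_neg hz, Fin.sum_univ_four, r0, r1, r2, r3, key, key, key, key]
  simp only [hA]
  have hu2 : ∀ a b : V k, ddc u z ![a, b] =
      1 / (4 * Real.pi) * (hess u z b (Complex.I • a) - hess u z a (Complex.I • b)) := by
    intro a b
    rw [ddc_ne hz]
    rfl
  simp only [hu2]
  have s0 : ((0 : Fin 4) : ℕ) = 0 := rfl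
  have s1 : ((1 : Fin 4) : ℕ) = 1 := rfl
  have s2 : ((2 : Fin 4) : ℕ) = 2 := rfl
  have s3 : ((3 : Fin 4) : ℕ) = 3 := rfl
  rw [s0, s1, s2, s3]
  linear_combination (-al u z (v 0)) * c123 + al u z (v 1) * c023 - al u z (v 2) * c013 +
    al u z (v 3) * c012

end Pool.Agent.H72R3.HJ
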