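import Pool.Agent.H72R3.HJ.Cut
import Pool.Agent.H72R3.HJ.Beta

/-!
# The product of two Henon maps
-/

set_option autoImplicit false

namespace Pool.Agent.H72R3.HJ

open Set Filter Topology
open scoped ContDiff
open MvPolynomial
open Pool.Agent.Helper853.Fb

/-- the product of two Henon maps -/
noncomputable def PP : PolyMap 4 :=
  ![X 0 ^ 8 - C (1 / 2) * X 1, C (1 / 2) * X 0, X 2 ^ 8 - C (1 / 2) * X 3, C (1 / 2) * X 2]

/-- its inverse -/
noncomputable def QQ : PolyMap 4 :=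
  ![C 2 * X 1, C 2 * (C 2 * X 1) ^ 8 - C 2 * X 0, C 2 * X 3, C 2 * (C 2 * X 3) ^ 8 - C 2 * X 2]

lemma toFun_PP (z : Fin 4 → ℂ) :
    toFun PP z = ![z 0 ^ 8 - (1 / 2) * z 1, (1 / 2) * z 0, z 2 ^ 8 - (1 / 2) * z 3,
      (1 / 2) * z 2] := by
  ext i
  unfold toFun PP
  fin_cases i <;> simp

lemma toFun_QQ (z : Fin 4 → ℂ) :
    toFun QQ z = ![2 * z 1, 2 * (2 * z 1) ^ 8 - 2 * z 0, 2 * z 3,
      2 * (2 * z 3) ^ 8 - 2 * z 2] := by
  ext i
  unfold toFun QQ
  fin_cases i <;> simp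

lemma hX (i : Fin 4) (n : ℕ) : (X i ^ n : MvPolynomial (Fin 4) ℂ).IsHomogeneous n := by
  have := (isHomogeneous_X ℂ i).pow n
  rwa [one_mul] at this

lemma hCX (c : ℂ) (i : Fin 4) : (C c * X i : MvPolynomial (Fin 4) ℂ).IsHomogeneous 1 := by
  have := (isHomogeneous_C (Fin 4) c).mul (isHomogeneous_X ℂ i)
  rwa [zero_add] at this

lemma hCX8 (c : ℂ) (i : Fin 4) :
    (C c * (C c * X i) ^ 8 : MvPolynomial (Fin 4) ℂ).IsHomogeneous 8 := by
  have := (isHomogeneous_C (Fin 4) c).mul ((hCX c i).pow 8)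
  rwa [zero_add, one_mul] at this

lemma hc8_of_8 {p : MvPolynomial (Fin 4) ℂ} (h : p.IsHomogeneous 8) :
    homogeneousComponent 8 p = p := by
  rw [homogeneousComponent_of_mem ((mem_homogeneousSubmodule 8 p).2 h), if_pos rfl]

lemma hc8_of_1 {p : MvPolynomial (Fin 4) ℂ} (h : p.IsHomogeneous 1) :
    homogeneousComponent 8 p = 0 := by
  rw [homogeneousComponent_of_mem ((mem_homogeneousSubmodule 1 p).2 h), if_neg (by norm_num)]

lemma deg_aux {p q : MvPolynomial (Fin 4) ℂ} (hp : p.IsHomogeneous 8) (hq : q.IsHomogeneous 1) :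
    (p - q).totalDegree ≤ 8 := by
  refine (totalDegree_sub p q).trans ?_
  exact max_le hp.totalDegree_le (hq.totalDegree_le.trans (by norm_num))

lemma le_deg {R : PolyMap 4} (i : Fin 4) (h : homogeneousComponent 8 (R i) ≠ 0) :
    8 ≤ degree R := by
  by_contra hcon
  push Not at hcon
  apply h
  apply homogeneousComponent_eq_zero
  refine lt_of_le_of_lt ?_ hcon
  exact Finset.le_sup (f := fun i => (R i).totalDegree) (Finset.mem_univ i)

lemma hPP0 : homogeneousComponent 8 (PP 0) = X 0 ^ 8 := by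
  show homogeneousComponent 8 (X 0 ^ 8 - C (1 / 2) * X 1) = _
  rw [map_sub, hc8_of_8 (hX 0 8), hc8_of_1 (hCX _ 1), sub_zero]

lemma hPP1 : homogeneousComponent 8 (PP 1) = 0 := hc8_of_1 (hCX _ 0)

lemma hPP2 : homogeneousComponent 8 (PP 2) = X 2 ^ 8 := by
  show homogeneousComponent 8 (X 2 ^ 8 - C (1 / 2) * X 3) = _
  rw [map_sub, hc8_of_8 (hX 2 8), hc8_of_1 (hCX _ 3), sub_zero]

lemma hPP3 : homogeneousComponent 8 (PP 3) = 0 := hc8_of_1 (hCX _ 2)

lemma hQQ0 : homogeneousComponent 8 (QQ 0) = 0 := hc8_of_1 (hCX _ 1)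

lemma hQQ1 : homogeneousComponent 8 (QQ 1) = C 2 * (C 2 * X 1) ^ 8 := by
  show homogeneousComponent 8 (C 2 * (C 2 * X 1) ^ 8 - C 2 * X 0) = _
  rw [map_sub, hc8_of_8 (hCX8 2 1), hc8_of_1 (hCX _ 0), sub_zero]

lemma hQQ2 : homogeneousComponent 8 (QQ 2) = 0 := hc8_of_1 (hCX _ 3)

lemma hQQ3 : homogeneousComponent 8 (QQ 3) = C 2 * (C 2 * X 3) ^ 8 := by
  show homogeneousComponent 8 (C 2 * (C 2 * X 3) ^ 8 - C 2 * X 2) = _
  rw [map_sub, hc8_of_8 (hCX8 2 3), hc8_of_1 (hCX _ 2), sub_zero]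

lemma degree_PP : degree PP = 8 := by
  apply le_antisymm
  · apply Finset.sup_le
    intro i _
    rcases fin4 i with rfl | rfl | rfl | rfl
    · exact deg_aux (hX 0 8) (hCX _ 1)
    · exact (hCX (1 / 2) 0).totalDegree_le.trans (by norm_num)
    · exact deg_aux (hX 2 8) (hCX _ 3)
    · exact (hCX (1 / 2) 2).totalDegree_le.trans (by norm_num)
  · apply le_deg 0
    rw [hPP0]
    exact pow_ne_zero _ (X_ne_zero 0)

lemma degree_QQ : degree QQ = 8 := by
  apply le_antisymm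
  · apply Finset.sup_le
    intro i _
    rcases fin4 i with rfl | rfl | rfl | rfl
    · exact (hCX 2 1).totalDegree_le.trans (by norm_num)
    · exact deg_aux (hCX8 2 1) (hCX _ 0)
    · exact (hCX 2 3).totalDegree_le.trans (by norm_num)
    · exact deg_aux (hCX8 2 3) (hCX _ 2)
  · apply le_deg 1
    rw [hQQ1]
    have h2 : (C 2 : MvPolynomial (Fin 4) ℂ) ≠ 0 := by
      rw [Ne, C_eq_zero]
      norm_num
    exact mul_ne_zero h2 (pow_ne_zero _ (mul_ne_zero h2 (X_ne_zero 1)))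

lemma indet_PP : indetCone PP = {z | z 0 = 0 ∧ z 2 = 0} := by
  unfold indetCone
  rw [degree_PP]
  ext z
  simp only [mem_ofPred_eq]
  constructor
  · intro h
    have h0 := h 0
    have h2 := h 2
    rw [hPP0] at h0
    rw [hPP2] at h2
    simp at h0 h2
    exact ⟨h0, h2⟩
  · rintro ⟨h0, h2⟩ i
    rcases fin4 i with rfl | rfl | rfl | rfl
    · rw [hPP0]; simp [h0]
    · rw [hPP1]; simp
    · rw [hPP2]; simp [h2]
    · rw [hPP3]; simp

lemma indet_QQ : indetCone QQ = {z | z 1 = 0 ∧ z 3 = 0} := by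
  unfold indetCone
  rw [degree_QQ]
  ext z
  simp only [mem_ofPred_eq]
  constructor
  · intro h
    have h0 := h 1
    have h2 := h 3
    rw [hQQ1] at h0
    rw [hQQ3] at h2
    simp at h0 h2
    exact ⟨h0, h2⟩
  · rintro ⟨h0, h2⟩ i
    rcases fin4 i with rfl | rfl | rfl | rfl
    · rw [hQQ0]; simp
    · rw [hQQ1]; simp [h0]
    · rw [hQQ2]; simp
    · rw [hQQ3]; simp [h2]

lemma exists_sub (σ : Fin 2 → Fin 4) (hσ : Function.Injective σ) :
    ∃ W : Submodule ℂ (Fin 4 → ℂ), (W : Set (Fin 4 → ℂ)) = {z | z (σ 0) = 0 ∧ z (σ 1) = 0} ∧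
      Module.finrank ℂ W = 2 := by
  refine ⟨LinearMap.ker (LinearMap.funLeft ℂ ℂ σ), ?_, ?_⟩
  · ext z
    simp only [SetLike.mem_coe, LinearMap.mem_ker, mem_ofPred_eq]
    constructor
    · intro h
      exact ⟨congrFun h 0, congrFun h 1⟩
    · rintro ⟨h0, h1⟩
      ext i
      fin_cases i
      · exact h0
      · exact h1
  · have h := LinearMap.finrank_range_add_finrank_ker (LinearMap.funLeft ℂ ℂ σ)
    have hs : Function.Surjective (LinearMap.funLeft ℂ ℂ σ) :=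
      LinearMap.funLeft_surjective_of_injective ℂ ℂ σ hσ
    rw [LinearMap.range_eq_top.2 hs, finrank_top] at h
    simp at h
    omega

lemma isHenon : IsHenonType PP QQ 2 where
  left_inv := by
    intro z
    rw [toFun_PP, toFun_QQ]
    ext i
    rcases fin4 i with rfl | rfl | rfl | rfl <;> simp <;> ring
  right_inv := by
    intro z
    rw [toFun_QQ, toFun_PP]
    ext i
    rcases fin4 i with rfl | rfl | rfl | rfl <;> simp <;> ring
  two_le_degree := by rw [degree_PP]; norm_num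
  disjoint := by
    rw [indet_PP, indet_QQ]
    ext z
    simp only [mem_inter_iff, mem_ofPred_eq, mem_singleton_iff]
    constructor
    · rintro ⟨⟨h0, h2⟩, h1, h3⟩
      ext i
      rcases fin4 i with rfl | rfl | rfl | rfl
      · exact h0
      · exact h1
      · exact h2
      · exact h3
    · rintro rfl
      simp
  one_le := by norm_num
  lt := by norm_num
  dim_indet := by
    obtain ⟨W, h1, h2⟩ := exists_sub ![0, 2] (by decide)
    refine ⟨W, ?_, ?_⟩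
    · rw [h1, indet_PP]
      rfl
    · rw [h2]
  dim_indet_inv := by
    obtain ⟨W, h1, h2⟩ := exists_sub ![1, 3] (by decide)
    refine ⟨W, ?_, h2⟩
    rw [h1, indet_QQ]
    rfl

/-- the inclusion of the first factor -/
noncomputable def emb : ℂ × ℂ →L[ℂ] (Fin 4 → ℂ) :=
  ContinuousLinearMap.pi ![ContinuousLinearMap.fst ℂ ℂ ℂ, ContinuousLinearMap.snd ℂ ℂ ℂ, 0, 0]

lemma emb_apply (q : ℂ × ℂ) : emb q = ![q.1, q.2, 0, 0] := by
  ext i
  rcases fin4 i with rfl | rfl | rfl | rfl <;> rfl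

lemma emb_Hn (q : ℂ × ℂ) : toFun PP (emb q) = emb (Hn q) := by
  rw [toFun_PP, emb_apply, emb_apply]
  ext i
  rcases fin4 i with rfl | rfl | rfl | rfl <;> simp [Hn] <;> ring

lemma emb_iter (n : ℕ) (q : ℂ × ℂ) : (toFun PP)^[n] (emb q) = emb (Hn^[n] q) := by
  induction n with
  | zero => rfl
  | succ n ih => rw [Function.iterate_succ_apply', ih, emb_Hn, Function.iterate_succ_apply']

/-- the parametrization of `ℂ²` as `ℂ × ℂ` -/
noncomputable def pro : (Fin 2 → ℂ) →L[ℂ] ℂ × ℂ :=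
  (ContinuousLinearMap.proj 0).prod (ContinuousLinearMap.proj 1)

/-- the entire map -/
noncomputable def tau (ζ : Fin 2 → ℂ) : Fin 4 → ℂ := emb (β (pro ζ))

lemma tau_differentiable : Differentiable ℂ tau :=
  emb.differentiable.comp (β_differentiable.comp pro.differentiable)

lemma tau_nondeg : Function.Injective (fderiv ℂ tau 0) := by
  have h1 : HasFDerivAt β (ContinuousLinearMap.id ℂ (ℂ × ℂ)) (pro 0) := by
    rw [map_zero]
    exact β_hasFDerivAt
  have h2 : HasFDerivAt tau (emb.comp ((ContinuousLinearMap.id ℂ (ℂ × ℂ)).comp pro)) 0 :=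
    emb.hasFDerivAt.comp 0 (h1.comp 0 pro.hasFDerivAt)
  rw [h2.fderiv]
  intro a b hab
  have h3 : emb (pro a) = emb (pro b) := hab
  rw [emb_apply, emb_apply] at h3
  have h4 := congrFun h3 0
  have h5 := congrFun h3 1
  ext i
  fin_cases i
  · exact h4
  · exact h5

lemma tau_mem (ζ : Fin 2 → ℂ) : tau ζ ∈ filledJulia PP := by
  obtain ⟨c, _, h⟩ := Ub_decay (β_mem (pro ζ))
  have h2 := h.self_of_nhds
  unfold filledJulia
  rw [mem_ofPred_eq, isBounded_iff_forall_norm_le]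
  refine ⟨‖emb‖ * c, ?_⟩
  rintro _ ⟨n, rfl⟩
  show ‖(toFun PP)^[n] (emb (β (pro ζ)))‖ ≤ _
  rw [emb_iter]
  refine (emb.le_opNorm _).trans ?_
  have h3 : c * (1 / 2 : ℝ) ^ n ≤ c := by
    have : (1 / 2 : ℝ) ^ n ≤ 1 := pow_le_one₀ (by norm_num) (by norm_num)
    nlinarith
  have := (h2 n).trans h3
  gcongr

lemma ineq {q : ℂ × ℂ} (hq : q ∈ Ub) :
    1 + ‖q.1‖ ^ 2 + ‖q.2‖ ^ 2 ≤ 5 * (‖q.1 - 3‖ ^ 2 + ‖q.2‖ ^ 2) := by
  have n1 := norm_nonneg q.1
  have n2 := norm_nonneg q.2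
  have n3 := norm_nonneg (q.1 - 3)
  rcases lt_or_ge ‖q.1‖ 2 with h | h
  · have h1 : 1 ≤ ‖q.1 - 3‖ := by
      have h2 := norm_sub_norm_le (3 : ℂ) q.1
      rw [norm_sub_rev, Complex.norm_ofNat] at h2
      linarith
    nlinarith
  · have h1 : ‖q.1‖ < ‖q.2‖ := by
      by_contra hcon
      push Not at hcon
      exact not_mem_Ub h hcon hq
    nlinarith [sq_nonneg ‖q.1 - 3‖]

lemma cone_le {z : V 4} (hz : z ∈ closure (cone (range tau))) : N z ≤ 5 * Q z := by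
  have hcl : IsClosed {z : V 4 | N z ≤ 5 * Q z} :=
    isClosed_le N_contDiff.continuous (continuous_const.mul Q_contDiff.continuous)
  refine closure_minimal ?_ hcl hz
  rintro _ ⟨_, ⟨ζ, rfl⟩, c, rfl⟩
  show N _ ≤ 5 * Q _
  rw [N_smul, Q_smul]
  have h := ineq (β_mem (pro ζ))
  have e1 : N (Fin.cons 1 (tau ζ) : V 4) = 1 + ‖(β (pro ζ)).1‖ ^ 2 + ‖(β (pro ζ)).2‖ ^ 2 := by
    unfold N tau
    rw [emb_apply, Fin.sum_univ_five]
    show ‖(1 : ℂ)‖ ^ 2 + ‖(β (pro ζ)).1‖ ^ 2 + ‖(β (pro ζ)).2‖ ^ 2 + ‖(0 : ℂ)‖ ^ 2 +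
      ‖(0 : ℂ)‖ ^ 2 = _
    simp
  have e2 : Q (Fin.cons 1 (tau ζ) : V 4) = ‖(β (pro ζ)).1 - 3‖ ^ 2 + ‖(β (pro ζ)).2‖ ^ 2 := by
    rw [Q_eq]
    unfold tau
    rw [emb_apply]
    show ‖(β (pro ζ)).1 - 3 * 1‖ ^ 2 + ‖(β (pro ζ)).2‖ ^ 2 = _
    rw [mul_one]
  rw [e1, e2]
  have : 0 ≤ ‖c‖ ^ 2 := by positivity
  nlinarith

theorem not_supported (T : FormFun 4 4 → ℝ) (hT : IsClosedCurrent T)
    (h1 : T (wedge (omega 4) (omega 4)) = 1) : ¬ IsSupportedInClosure T (range tau) := by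
  intro hs
  have hLv : Hg (2 - 0) Lv := Hg_L.sub Hg_vv
  have hL2 : Hg (2 - (0 - 2)) (fun y => L y - (vv y - L y)) := Hg_L.sub (Hg_vv.sub Hg_L)
  have hvL : Hg (0 - 2) (fun y => vv y - L y) := Hg_vv.sub Hg_L
  have e : wedge (omega 4) (omega 4) =
      wedge (ddc Lv) (ddc Lv) + extD (eta vv (fun y => L y - (vv y - L y))) := by
    rw [extD_eta Hg_vv.sm hL2.sm]
    have eo : omega 4 = ddc L := rfl
    have a1 : ∀ z v, ddc Lv z v = ddc L z v - ddc vv z v := fun z v =>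
      ddc_sub Hg_L.sm Hg_vv.sm z v
    have a2 : ∀ z v, ddc (fun y => L y - (vv y - L y)) z v =
        ddc L z v - (ddc vv z v - ddc L z v) := by
      intro z v
      rw [ddc_sub Hg_L.sm hvL.sm, ddc_sub Hg_vv.sm Hg_L.sm]
    rw [eo]
    ext z v
    simp only [Pi.add_apply]
    unfold wedge
    simp only [a1, a2]
    ring
  have f1 : IsForm (wedge (ddc Lv) (ddc Lv)) := isForm_wedge hLv.isForm_ddc hLv.isForm_ddc
  have f2 : IsForm (extD (eta vv (fun y => L y - (vv y - L y)))) := by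
    rw [extD_eta Hg_vv.sm hL2.sm]
    exact isForm_wedge Hg_vv.isForm_ddc hL2.isForm_ddc
  have t1 : T (wedge (ddc Lv) (ddc Lv)) = 0 := by
    apply hs _ f1
    intro z hz hz0
    have h2 := cone_le hz
    have hN := N_pos hz0
    have h3 : 1 / 10 < Q z / N z := by
      rw [lt_div_iff₀ hN]
      linarith
    have hcont : ContinuousAt (fun y : V 4 => Q y / N y) z :=
      Q_contDiff.continuous.continuousAt.div N_contDiff.continuous.continuousAt hN.ne'
    filter_upwards [mem_c hz0, hcont.eventually_const_lt h3] with y hy0 hy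
    exact wedge_Lv hy0 hy
  have t2 : T (extD (eta vv (fun y => L y - (vv y - L y)))) = 0 :=
    hT.closed _ (isForm_eta Hg_vv hL2)
  rw [e, hT.add _ _ f1 f2, t1, t2] at h1
  norm_num at h1

end Pool.Agent.H72R3.HJ
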